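import Pool.Agent.Work.MP_453366_nt.Main

/-!
Equal least common multiples of two disjoint blocks of consecutive integers: only finitely many
solutions have the later block longer than the earlier one by `k / (C (log (k+l))^θ)`, `θ < 3/2`.
-/

namespace Pool.Agent.Results.MP_453366_nt.LongerSecondBlock

theorem result (θ C : ℝ) (hθ : θ < 3 / 2) :
    Set.Finite {x : ℕ × ℕ × ℕ × ℕ | ∃ m k n l : ℕ, x = (m, k, n, l) ∧ k < l ∧ m + k ≤ n ∧
      (Finset.Icc (m + 1) (m + k)).lcm id = (Finset.Icc (n + 1) (n + l)).lcm id ∧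
      (k : ℝ) ≤ C * ((l : ℝ) - k) * Real.log ((k : ℝ) + l) ^ θ} := by
  refine (Pool.Agent.Work.MP_453366_nt.finite_long θ C hθ).subset ?_
  rintro _ ⟨m, k, n, l, rfl, h⟩
  exact h

end Pool.Agent.Results.MP_453366_nt.LongerSecondBlock
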