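import Pool.Agent.Work.MP_453366_nt.Main

/-!
Two disjoint blocks of consecutive integers whose least common multiples have the same prime
factors: only finitely many of them have the later block starting below `exp((log (k+l))^θ)`,
for each fixed `θ < 3/2`.
-/

namespace Pool.Agent.Results.MP_453366_nt.QuasiPolyRange

theorem result (θ : ℝ) (hθ : θ < 3 / 2) :
    Set.Finite {x : ℕ × ℕ × ℕ × ℕ | ∃ m k n l : ℕ, x = (m, k, n, l) ∧ m + k ≤ n ∧
      (∀ p : ℕ, p.Prime → (p ∣ (Finset.Icc (m + 1) (m + k)).lcm id ↔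
        p ∣ (Finset.Icc (n + 1) (n + l)).lcm id)) ∧
      (n : ℝ) ≤ Real.exp (Real.log ((k : ℝ) + l) ^ θ)} := by
  refine (Pool.Agent.Work.MP_453366_nt.finite_range θ hθ).subset ?_
  rintro _ ⟨m, k, n, l, rfl, h⟩
  exact h

end Pool.Agent.Results.MP_453366_nt.QuasiPolyRange
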